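import Pool.Agent.Y208.LQ.Stm

/-!
# `gl_5(R)/F` is simple and finitely presented
-/

set_option autoImplicit false

namespace Y366.LQ

open Y208.LQ Matrix

attribute [local instance 100] LieRing.ofAssociativeRing

section ideal
variable {F R : Type} [Field F] [Ring R] [Algebra F R]

abbrev M5 (R : Type) : Type := Matrix (Fin 5) (Fin 5) R

theorem lie_single_same {i j k : Fin 5} (hik : i ≠ k) (a b : R) :
    ⁅(Matrix.single i j a : M5 R), Matrix.single j k b⁆ = Matrix.single i k (a * b) := by
  rw [Ring.lie_def, Matrix.single_mul_single_same, Matrix.single_mul_single_of_ne _ _ _ _ hik.symm,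
    sub_zero]

theorem lie_single_back {i j : Fin 5} (a b : R) :
    ⁅(Matrix.single i j a : M5 R), Matrix.single j i b⁆ =
      Matrix.single i i (a * b) - Matrix.single j j (b * a) := by
  rw [Ring.lie_def, Matrix.single_mul_single_same, Matrix.single_mul_single_same]

variable (K : LieIdeal F (M5 R))

/-- right transport -/
theorem move_right {i j k : Fin 5} (hik : i ≠ k) {r : R} (b : R)
    (h : Matrix.single i j r ∈ K) : Matrix.single i k (r * b) ∈ K := by
  rw [← lie_single_same hik]
  rw [← lie_skew]
  exact neg_mem (lie_mem_right F (M5 R) K _ _ h)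

/-- left transport -/
theorem move_left {i j k : Fin 5} (hkj : k ≠ j) {r : R} (b : R)
    (h : Matrix.single i j r ∈ K) : Matrix.single k j (b * r) ∈ K := by
  rw [← lie_single_same hkj]
  exact lie_mem_right F (M5 R) K _ _ h

theorem exists_fifth (p q i j : Fin 5) : ∃ m : Fin 5, m ≠ p ∧ m ≠ q ∧ m ≠ i ∧ m ≠ j := by
  revert p q i j
  decide

theorem move_all {p q : Fin 5} {r : R} (h : Matrix.single p q r ∈ K) (i j : Fin 5)
    (hij : i ≠ j) : Matrix.single i j r ∈ K := by
  obtain ⟨m, h1, h2, h3, h4⟩ := exists_fifth p q i j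
  have e1 : Matrix.single p m r ∈ K := by
    have := move_right K (k := m) h1.symm 1 h
    rwa [mul_one] at this
  have e2 : Matrix.single i m r ∈ K := by
    have := move_left K (k := i) h3.symm 1 e1
    rwa [one_mul] at this
  have := move_right K (k := j) hij 1 e2
  rwa [mul_one] at this

/-- The ideal of the entries. -/
def entries : TwoSidedIdeal R := TwoSidedIdeal.mk'
  {r : R | ∀ i j : Fin 5, i ≠ j → Matrix.single i j r ∈ K}
  (by
    intro i j _
    rw [Matrix.single_zero]
    exact K.zero_mem)
  (by
    intro x y hx hy i j hij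
    rw [Matrix.single_add]
    exact add_mem (hx i j hij) (hy i j hij))
  (by
    intro x hx i j hij
    rw [← Matrix.single_neg]
    exact neg_mem (hx i j hij))
  (by
    intro x y hy i j hij
    obtain ⟨m, _, _, h3, h4⟩ := exists_fifth i j i j
    exact move_left K hij x (hy m j h4))
  (by
    intro x y hx i j hij
    obtain ⟨m, _, _, h3, h4⟩ := exists_fifth i j i j
    exact move_right K hij y (hx i m h3.symm))

theorem mem_entries {r : R} : r ∈ entries K ↔ ∀ i j : Fin 5, i ≠ j → Matrix.single i j r ∈ K := by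
  unfold entries
  rw [TwoSidedIdeal.mem_mk']
  rfl

/-- A Lie ideal with a nonscalar element contains an elementary matrix. -/
theorem exists_single (hc : ∀ z : R, (∀ c, z * c = c * z) → ∃ r : F, algebraMap F R r = z)
    (X : M5 R) (hX : X ∈ K) (hns : ¬ ∃ r : F, X = algebraMap F (M5 R) r) :
    ∃ (p q : Fin 5) (r : R), p ≠ q ∧ r ≠ 0 ∧ Matrix.single p q r ∈ K := by
  by_cases hoff : ∃ i j : Fin 5, i ≠ j ∧ X i j ≠ 0
  · obtain ⟨i, j, hij, h0⟩ := hoff
    obtain ⟨p, _, _, hp3, hp4⟩ := exists_fifth i j i j
    obtain ⟨s, hs1, hs2, hs3, _⟩ := exists_fifth i j p p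
    refine ⟨s, j, X i j, hs2, h0, ?_⟩
    have e1 : ⁅(Matrix.single p i 1 : M5 R), X⁆ ∈ K := lie_mem_right F (M5 R) K _ _ hX
    have e2 : ⁅(Matrix.single j j 1 : M5 R), ⁅(Matrix.single p i 1 : M5 R), X⁆⁆ ∈ K :=
      lie_mem_right F (M5 R) K _ _ e1
    have e3 : ⁅(Matrix.single s p 1 : M5 R), ⁅(Matrix.single j j 1 : M5 R),
        ⁅(Matrix.single p i 1 : M5 R), X⁆⁆⁆ ∈ K := lie_mem_right F (M5 R) K _ _ e2
    have e4 : ⁅(Matrix.single s p 1 : M5 R), ⁅(Matrix.single j j 1 : M5 R),
        ⁅(Matrix.single p i 1 : M5 R), X⁆⁆⁆ = - Matrix.single s j (X i j) := by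
      simp only [Ring.lie_def, mul_sub, sub_mul]
      have a1 : (Matrix.single s p 1 : M5 R) * (Matrix.single j j 1 * (Matrix.single p i 1 * X)) =
          0 := by
        rw [← mul_assoc (Matrix.single j j 1), Matrix.single_mul_single_of_ne _ _ _ _ hp4.symm,
          zero_mul, mul_zero]
      have a2 : (Matrix.single s p 1 : M5 R) * (Matrix.single j j 1 * (X * Matrix.single p i 1)) =
          0 := by
        rw [← mul_assoc (Matrix.single s p 1), Matrix.single_mul_single_of_ne _ _ _ _ hp4,
          zero_mul]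
      have a3 : (Matrix.single s p 1 : M5 R) * (Matrix.single p i 1 * X * Matrix.single j j 1) =
          Matrix.single s j (X i j) := by
        rw [Matrix.single_mul_mul_single, Matrix.single_mul_single_same]
        simp
      have a4 : (Matrix.single s p 1 : M5 R) * (X * Matrix.single p i 1 * Matrix.single j j 1) =
          0 := by
        rw [mul_assoc X, Matrix.single_mul_single_of_ne _ _ _ _ hij, mul_zero, mul_zero]
      have a5 : (Matrix.single j j 1 : M5 R) * (Matrix.single p i 1 * X) * Matrix.single s p 1 =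
          0 := by
        rw [← mul_assoc (Matrix.single j j 1), Matrix.single_mul_single_of_ne _ _ _ _ hp4.symm,
          zero_mul, zero_mul]
      have a6 : (Matrix.single j j 1 : M5 R) * (X * Matrix.single p i 1) * Matrix.single s p 1 =
          0 := by
        rw [mul_assoc, mul_assoc X, Matrix.single_mul_single_of_ne _ _ _ _ hs1.symm, mul_zero,
          mul_zero]
      have a7 : (Matrix.single p i 1 : M5 R) * X * Matrix.single j j 1 * Matrix.single s p 1 =
          0 := by
        rw [mul_assoc (_ * X), Matrix.single_mul_single_of_ne _ _ _ _ hs2.symm, mul_zero]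
      have a8 : X * (Matrix.single p i 1 : M5 R) * Matrix.single j j 1 * Matrix.single s p 1 =
          0 := by
        rw [mul_assoc (X * _), Matrix.single_mul_single_of_ne _ _ _ _ hs2.symm, mul_zero]
      rw [a1, a2, a3, a4, a5, a6, a7, a8]
      abel
    rw [e4] at e3
    have e5 := neg_mem e3
    rwa [neg_neg] at e5
  · push Not at hoff
    have hdiag : X = Matrix.diagonal fun i => X i i := by
      ext i j
      by_cases hij : i = j
      · rw [hij, Matrix.diagonal_apply_eq]
      · rw [Matrix.diagonal_apply_ne _ hij, hoff i j hij]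
    have hbr : ∀ (i j : Fin 5) (a : R), ⁅X, (Matrix.single i j a : M5 R)⁆ =
        Matrix.single i j (X i i * a - a * X j j) := by
      intro i j a
      rw [Ring.lie_def]
      conv_lhs => rw [hdiag]
      ext u v
      rw [Matrix.sub_apply, Matrix.diagonal_mul, Matrix.mul_diagonal]
      simp only [Matrix.single_apply]
      by_cases h : i = u ∧ j = v
      · obtain ⟨rfl, rfl⟩ := h
        simp
      · simp [h]
    by_cases hd : ∃ i j : Fin 5, i ≠ j ∧ X i i ≠ X j j
    · obtain ⟨i, j, hij, h0⟩ := hd
      refine ⟨i, j, X i i - X j j, hij, sub_ne_zero.2 h0, ?_⟩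
      have h1 := hbr i j 1
      rw [mul_one, one_mul] at h1
      rw [← h1, ← lie_skew]
      exact neg_mem (lie_mem_right F (M5 R) K _ _ hX)
    · push Not at hd
      have hx : ∀ i, X i i = X 0 0 := by
        intro i
        by_cases hi : i = 0
        · rw [hi]
        · exact hd i 0 hi
      have hnc : ∃ a : R, X 0 0 * a ≠ a * X 0 0 := by
        by_contra hcon
        push Not at hcon
        obtain ⟨r, hr⟩ := hc _ hcon
        refine hns ⟨r, ?_⟩
        rw [hdiag, Matrix.algebraMap_eq_diagonal]
        congr 1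
        funext i
        rw [Pi.algebraMap_apply, hr, hx i]
      obtain ⟨a, ha⟩ := hnc
      refine ⟨0, 1, X 0 0 * a - a * X 0 0, by decide, sub_ne_zero.2 ha, ?_⟩
      have h1 := hbr 0 1 a
      rw [hx 1] at h1
      rw [← h1, ← lie_skew]
      exact neg_mem (lie_mem_right F (M5 R) K _ _ hX)

theorem ideal_eq_top [IsSimpleRing R]
    (hc : ∀ z : R, (∀ c, z * c = c * z) → ∃ r : F, algebraMap F R r = z)
    (hspan : Submodule.span F {z : R | ∃ a b : R, z = a * b - b * a} = ⊤)
    (X : M5 R) (hX : X ∈ K) (hns : ¬ ∃ r : F, X = algebraMap F (M5 R) r) : K = ⊤ := by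
  obtain ⟨p, q, r, hpq, hr, hrK⟩ := exists_single K hc X hX hns
  have h1 : r ∈ entries K := (mem_entries K).2 fun i j hij => move_all K hrK i j hij
  have h2 : entries K = ⊤ := by
    rcases eq_bot_or_eq_top (entries K) with h3 | h3
    · rw [h3, TwoSidedIdeal.mem_bot] at h1
      exact absurd h1 hr
    · exact h3
  have hoff : ∀ (i j : Fin 5) (a : R), i ≠ j → Matrix.single i j a ∈ K := by
    intro i j a hij
    have h3 : a ∈ entries K := by rw [h2]; exact TwoSidedIdeal.mem_top _
    exact (mem_entries K).1 h3 i j hij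
  have hdiag : ∀ (i : Fin 5) (a : R), Matrix.single i i a ∈ K := by
    intro i a
    obtain ⟨j, hj, _⟩ := exists_fifth i i i i
    have h3 : a ∈ Submodule.span F {z : R | ∃ a b : R, z = a * b - b * a} := by
      rw [hspan]
      trivial
    induction h3 using Submodule.span_induction with
    | mem x hx =>
      obtain ⟨a, b, rfl⟩ := hx
      have e1 : ⁅(Matrix.single i j a : M5 R), Matrix.single j i b⁆ ∈ K :=
        lie_mem_right F (M5 R) K _ _ (hoff j i b hj)
      have e2 : ⁅(Matrix.single i j 1 : M5 R), Matrix.single j i (b * a)⁆ ∈ K :=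
        lie_mem_right F (M5 R) K _ _ (hoff j i _ hj)
      have e3 := sub_mem e1 e2
      rw [lie_single_back, lie_single_back, one_mul, mul_one, sub_sub_sub_cancel_right,
        sub_eq_add_neg, Matrix.single_neg, ← Matrix.single_add, ← sub_eq_add_neg] at e3
      exact e3
    | zero =>
      rw [Matrix.single_zero]
      exact K.zero_mem
    | add x y _ _ hx hy =>
      rw [Matrix.single_add]
      exact add_mem hx hy
    | smul c x _ hx =>
      have : (Matrix.single i i (c • x) : M5 R) = c • Matrix.single i i x := by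
        rw [Matrix.smul_single]
      rw [this]
      exact SMulMemClass.smul_mem c hx
  rw [eq_top_iff]
  intro Y _
  rw [Matrix.matrix_eq_sum_single Y]
  refine Submodule.sum_mem K.toSubmodule fun i _ => Submodule.sum_mem K.toSubmodule fun j _ => ?_
  by_cases hij : i = j
  · rw [hij]
    exact hdiag j _
  · exact hoff i j _ hij

end ideal

/-- The ideal of the scalar matrices. -/
def scal (F R : Type) [Field F] [Ring R] [Algebra F R] : LieIdeal F (M5 R) where
  carrier := {X | ∃ r : F, X = algebraMap F (M5 R) r}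
  zero_mem' := ⟨0, (map_zero _).symm⟩
  add_mem' := by
    rintro _ _ ⟨a, rfl⟩ ⟨b, rfl⟩
    exact ⟨a + b, (map_add _ _ _).symm⟩
  smul_mem' := by
    rintro c _ ⟨a, rfl⟩
    exact ⟨c * a, by rw [map_mul, Algebra.smul_def]⟩
  lie_mem := by
    rintro X _ ⟨a, rfl⟩
    refine ⟨0, ?_⟩
    rw [Ring.lie_def, map_zero, Algebra.commutes, sub_self]

theorem mem_scal {F R : Type} [Field F] [Ring R] [Algebra F R] {X : M5 R} :
    X ∈ scal F R ↔ ∃ r : F, X = algebraMap F (M5 R) r := Iff.rfl

theorem t_GLS : S_GLS := by
  classical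
  intro F R _ _ _ _ hc hspan hfp
  let I := scal F R
  let π : M5 R →ₗ⁅F⁆ (M5 R ⧸ I) :=
    { (LieSubmodule.Quotient.mk' I : M5 R →ₗ[F] (M5 R ⧸ I)) with
      map_lie' := fun {x y} => LieSubmodule.Quotient.mk_bracket _ x y }
  have hπs : Function.Surjective π := LieSubmodule.Quotient.surjective_mk' I
  have hπ0 : ∀ X, π X = 0 ↔ ∃ r : F, X = algebraMap F (M5 R) r := by
    intro X
    exact (LieSubmodule.Quotient.mk_eq_zero' (N := I) (m := X)).trans mem_scal
  refine ⟨M5 R ⧸ I, inferInstance, inferInstance, π, hπs, hπ0, ?_, ?_⟩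
  · obtain ⟨n, R0, φ, hφs, hφk⟩ := hfp
    obtain ⟨z, hz⟩ := hφs 1
    refine ⟨n, insert z R0, π.comp φ, hπs.comp hφs, ?_⟩
    apply le_antisymm
    · intro x hx
      have h1 : π (φ x) = 0 := hx
      obtain ⟨r, hr⟩ := (hπ0 _).1 h1
      have h2 : x - r • z ∈ φ.ker := by
        rw [LieHom.mem_ker, map_sub, map_smul, hz, hr, Algebra.algebraMap_eq_smul_one, sub_self]
      have h3 : x - r • z ∈ LieSubmodule.lieSpan F (FreeLieAlgebra F (Fin n))
          ((insert z R0 : Finset (FreeLieAlgebra F (Fin n))) : Set (FreeLieAlgebra F (Fin n))) := by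
        rw [hφk] at h2
        exact LieSubmodule.lieSpan_mono (by
          rw [Finset.coe_insert]
          exact Set.subset_insert _ _) h2
      have h4 : r • z ∈ LieSubmodule.lieSpan F (FreeLieAlgebra F (Fin n))
          ((insert z R0 : Finset (FreeLieAlgebra F (Fin n))) : Set (FreeLieAlgebra F (Fin n))) := by
        apply SMulMemClass.smul_mem
        apply LieSubmodule.subset_lieSpan
        rw [Finset.coe_insert]
        exact Set.mem_insert _ _
      have h5 := add_mem h3 h4
      rwa [sub_add_cancel] at h5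
    · rw [LieSubmodule.lieSpan_le]
      intro x hx
      rw [Finset.coe_insert, Set.mem_insert_iff] at hx
      show π (φ x) = 0
      rcases hx with rfl | hx
      · rw [hz]
        exact (hπ0 _).2 ⟨1, (map_one _).symm⟩
      · have h1 : x ∈ φ.ker := by
          rw [hφk]
          exact LieSubmodule.subset_lieSpan hx
        rw [LieHom.mem_ker] at h1
        rw [h1, map_zero]
  · have hns1 : ∀ (i j : Fin 5), i ≠ j → π (Matrix.single i j 1) ≠ 0 := by
      intro i j hij h0
      obtain ⟨r, hr⟩ := (hπ0 _).1 h0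
      have h1 := congrFun (congrFun hr i) j
      rw [Matrix.algebraMap_eq_diagonal, Matrix.diagonal_apply_ne _ hij,
        Matrix.single_apply_same] at h1
      exact one_ne_zero h1
    refine ⟨?_, ?_⟩
    · intro J
      by_cases hJ : ∃ X : M5 R, π X ∈ J ∧ ¬ ∃ r : F, X = algebraMap F (M5 R) r
      · right
        obtain ⟨X, hX, hns⟩ := hJ
        have h1 : LieIdeal.comap π J = ⊤ :=
          ideal_eq_top (LieIdeal.comap π J) hc hspan X (LieIdeal.mem_comap.2 hX) hns
        rw [eq_top_iff]
        intro y _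
        obtain ⟨Y, rfl⟩ := hπs y
        have h2 : Y ∈ LieIdeal.comap π J := by
          rw [h1]
          trivial
        exact LieIdeal.mem_comap.1 h2
      · left
        push Not at hJ
        rw [eq_bot_iff]
        intro y hy
        obtain ⟨Y, rfl⟩ := hπs y
        rw [LieSubmodule.mem_bot]
        exact (hπ0 Y).2 (hJ Y hy)
    · intro hab
      have h1 : ⁅π (Matrix.single 0 1 1), π (Matrix.single 1 2 1)⁆ = 0 := hab.trivial _ _
      rw [← LieHom.map_lie, lie_single_same (by decide), mul_one] at h1
      exact hns1 0 2 (by decide) h1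

end Y366.LQ
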