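import Pool.Agent.Y208.LQ.Stm

/-!
# `gl_5(R)` is finitely presented
-/

set_option autoImplicit false

namespace Y366.LQ.F

open Y208.LQ Matrix

attribute [local instance 100] LieRing.ofAssociativeRing

noncomputable section

section general
variable {F g h : Type} [Field F] [LieRing g] [LieAlgebra F g] [LieRing h] [LieAlgebra F h]

/-- A quotient of a finitely presented Lie algebra by an ideal generated by finitely many
elements is finitely presented. -/
theorem fp_quot (hg : LieFP F g) (π : g →ₗ⁅F⁆ h) (hπ : Function.Surjective π) (S : Set g)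
    (hS : S.Finite) (hker : π.ker = LieSubmodule.lieSpan F g S) : LieFP F h := by
  classical
  obtain ⟨n, R0, φ, hφs, hφk⟩ := hg
  have hinv : ∀ y, φ (Function.surjInv hφs y) = y := Function.surjInv_eq hφs
  set N : Finset (FreeLieAlgebra F (Fin n)) := R0 ∪ hS.toFinset.image (Function.surjInv hφs)
    with hN
  refine ⟨n, N, π.comp φ, hπ.comp hφs, ?_⟩
  set J := LieSubmodule.lieSpan F (FreeLieAlgebra F (Fin n))
    (N : Set (FreeLieAlgebra F (Fin n))) with hJ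
  have hR0J : LieSubmodule.lieSpan F (FreeLieAlgebra F (Fin n))
      (R0 : Set (FreeLieAlgebra F (Fin n))) ≤ J := by
    apply LieSubmodule.lieSpan_mono
    rw [hN, Finset.coe_union]
    exact Set.subset_union_left
  apply le_antisymm
  · intro x hx
    have h1 : φ x ∈ π.ker := hx
    rw [hker] at h1
    have h2 : LieSubmodule.lieSpan F g S ≤ LieIdeal.map φ J := by
      rw [LieSubmodule.lieSpan_le]
      intro s hs
      rw [← hinv s]
      apply LieIdeal.mem_map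
      apply LieSubmodule.subset_lieSpan
      rw [hN, Finset.coe_union, Finset.coe_image]
      exact Or.inr ⟨s, by simpa using hs, rfl⟩
    obtain ⟨⟨y, hy⟩, hyx⟩ := LieIdeal.mem_map_of_surjective hφs (h2 h1)
    have h3 : x - y ∈ φ.ker := by
      rw [LieHom.mem_ker, map_sub, sub_eq_zero]
      exact hyx.symm
    rw [hφk] at h3
    have h4 := add_mem (hR0J h3) hy
    rwa [sub_add_cancel] at h4
  · rw [hJ, LieSubmodule.lieSpan_le]
    intro x hx
    rw [hN, Finset.coe_union, Finset.coe_image] at hx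
    show π (φ x) = 0
    rcases hx with hx | ⟨s, hs, rfl⟩
    · have h1 : x ∈ φ.ker := by
        rw [hφk]
        exact LieSubmodule.subset_lieSpan hx
      rw [LieHom.mem_ker] at h1
      rw [h1, map_zero]
    · rw [hinv]
      have h1 : s ∈ π.ker := by
        rw [hker]
        exact LieSubmodule.subset_lieSpan (by simpa using hs)
      exact h1

theorem fp_bij (hg : LieFP F g) (π : g →ₗ⁅F⁆ h) (hπ : Function.Bijective π) : LieFP F h := by
  refine fp_quot hg π hπ.2 ∅ Set.finite_empty ?_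
  rw [LieSubmodule.span_empty, LieHom.ker_eq_bot]
  exact hπ.1

/-- Homomorphisms descend to quotients. -/
theorem descend {k : Type} [LieRing k] [LieAlgebra F k] (π : g →ₗ⁅F⁆ h)
    (hπ : Function.Surjective π) (S : Set g) (hker : π.ker = LieSubmodule.lieSpan F g S)
    (f : g →ₗ⁅F⁆ k) (hf : ∀ s ∈ S, f s = 0) : ∃ f' : h →ₗ⁅F⁆ k, ∀ x, f' (π x) = f x := by
  have hle : ∀ x, π x = 0 → f x = 0 := by
    intro x hx
    have h1 : x ∈ π.ker := hx
    rw [hker] at h1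
    have h2 : LieSubmodule.lieSpan F g S ≤ f.ker := by
      rw [LieSubmodule.lieSpan_le]
      intro s hs
      exact hf s hs
    exact h2 h1
  obtain ⟨s, hs⟩ := LinearMap.exists_rightInverse_of_surjective (π : g →ₗ[F] h)
    (LinearMap.range_eq_top.2 hπ)
  have hs' : ∀ y, π (s y) = y := fun y => LinearMap.congr_fun hs y
  have key : ∀ x, f (s (π x)) = f x := by
    intro x
    rw [← sub_eq_zero, ← map_sub]
    apply hle
    rw [map_sub, hs', sub_self]
  refine ⟨{ (f : g →ₗ[F] k).comp s with map_lie' := ?_ }, ?_⟩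
  · intro x y
    show f (s ⁅x, y⁆) = ⁅f (s x), f (s y)⁆
    rw [← LieHom.map_lie]
    conv_lhs => rw [← hs' x, ← hs' y, ← LieHom.map_lie]
    rw [key]
  · intro x
    exact key x

theorem fp_free (G : Type) [Fintype G] : LieFP F (FreeLieAlgebra F G) := by
  obtain ⟨e⟩ : Nonempty (G ≃ Fin (Fintype.card G)) := ⟨Fintype.equivFin G⟩
  let ψ : FreeLieAlgebra F (Fin (Fintype.card G)) →ₗ⁅F⁆ FreeLieAlgebra F G :=
    FreeLieAlgebra.lift F fun i => FreeLieAlgebra.of F (e.symm i)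
  let ψ' : FreeLieAlgebra F G →ₗ⁅F⁆ FreeLieAlgebra F (Fin (Fintype.card G)) :=
    FreeLieAlgebra.lift F fun x => FreeLieAlgebra.of F (e x)
  have h1 : ψ.comp ψ' = LieHom.id := by
    apply FreeLieAlgebra.hom_ext
    intro x
    simp [ψ, ψ']
  have h2 : ψ'.comp ψ = LieHom.id := by
    apply FreeLieAlgebra.hom_ext
    intro x
    simp [ψ, ψ']
  have h1' : ∀ x, ψ (ψ' x) = x := fun x => LieHom.congr_fun h1 x
  have h2' : ∀ x, ψ' (ψ x) = x := fun x => LieHom.congr_fun h2 x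
  refine ⟨Fintype.card G, ∅, ψ, fun x => ⟨ψ' x, h1' x⟩, ?_⟩
  rw [Finset.coe_empty, LieSubmodule.span_empty, LieHom.ker_eq_bot]
  intro x y hxy
  rw [← h2' x, ← h2' y, hxy]

/-- The quotient map. -/
def qm (I : LieIdeal F g) : g →ₗ⁅F⁆ (g ⧸ I) :=
  { (LieSubmodule.Quotient.mk' I : g →ₗ[F] (g ⧸ I)) with
    map_lie' := fun {x y} => LieSubmodule.Quotient.mk_bracket _ x y }

theorem qm_surj (I : LieIdeal F g) : Function.Surjective (qm I) :=
  LieSubmodule.Quotient.surjective_mk' I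

theorem qm_ker (I : LieIdeal F g) : (qm I).ker = I := by
  ext x
  exact LieSubmodule.Quotient.mk_eq_zero' (N := I) (m := x)

end general

theorem fifth (p q i j : Fin 5) : ∃ m : Fin 5, m ≠ p ∧ m ≠ q ∧ m ≠ i ∧ m ≠ j := by
  revert p q i j
  decide

section rels
variable (F X : Type) [Field F]

abbrev Gn : Type := Option X × Fin 5 × Fin 5

/-- The generators. -/
def tg (x : Option X) (i j : Fin 5) : FreeLieAlgebra F (Gn X) := FreeLieAlgebra.of F (x, i, j)

def r1 (p : (Option X × Option X) × (Fin 5 × Fin 5) × (Fin 5 × Fin 5)) : FreeLieAlgebra F (Gn X) :=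
  if p.2.1.1 ≠ p.2.1.2 ∧ p.2.2.1 ≠ p.2.2.2 ∧ p.2.1.2 ≠ p.2.2.1 ∧ p.2.1.1 ≠ p.2.2.2 then
    ⁅tg F X p.1.1 p.2.1.1 p.2.1.2, tg F X p.1.2 p.2.2.1 p.2.2.2⁆ else 0

def r2 (p : Option X × Fin 5 × Fin 5 × Fin 5) : FreeLieAlgebra F (Gn X) :=
  if p.2.1 ≠ p.2.2.1 ∧ p.2.2.1 ≠ p.2.2.2 ∧ p.2.1 ≠ p.2.2.2 then
    ⁅tg F X p.1 p.2.1 p.2.2.1, tg F X none p.2.2.1 p.2.2.2⁆ - tg F X p.1 p.2.1 p.2.2.2 else 0

def r3 (p : Option X × Fin 5 × Fin 5 × Fin 5) : FreeLieAlgebra F (Gn X) :=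
  if p.2.1 ≠ p.2.2.1 ∧ p.2.2.1 ≠ p.2.2.2 ∧ p.2.1 ≠ p.2.2.2 then
    ⁅tg F X none p.2.1 p.2.2.1, tg F X p.1 p.2.2.1 p.2.2.2⁆ - tg F X p.1 p.2.1 p.2.2.2 else 0

def r4 (p : (Option X × Option X) × (Fin 5 × Fin 5) × (Fin 5 × Fin 5)) : FreeLieAlgebra F (Gn X) :=
  if p.2.1.1 ≠ p.2.1.2 ∧ p.2.1.2 ≠ p.2.2.2 ∧ p.2.1.1 ≠ p.2.2.2 ∧ p.2.1.1 ≠ p.2.2.1 ∧
      p.2.2.1 ≠ p.2.2.2 then
    ⁅tg F X p.1.1 p.2.1.1 p.2.1.2, tg F X p.1.2 p.2.1.2 p.2.2.2⁆ -
      ⁅tg F X p.1.1 p.2.1.1 p.2.2.1, tg F X p.1.2 p.2.2.1 p.2.2.2⁆ else 0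

def r5 (p : Option X × Fin 5) : FreeLieAlgebra F (Gn X) := tg F X p.1 p.2 p.2

/-- The Steinberg relations. -/
def NR : Set (FreeLieAlgebra F (Gn X)) :=
  Set.range (r1 F X) ∪ Set.range (r2 F X) ∪ Set.range (r3 F X) ∪ Set.range (r4 F X) ∪
    Set.range (r5 F X)

theorem NR_finite [Finite X] : (NR F X).Finite :=
  ((((Set.finite_range _).union (Set.finite_range _)).union (Set.finite_range _)).union
    (Set.finite_range _)).union (Set.finite_range _)

end rels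

theorem t_STF (h1 : S_STW) (h2 : S_STK) : S_STF := by
  classical
  intro F R _ _ _ hcyc hfp
  obtain ⟨n, Rel, ⟨e⟩⟩ := hfp
  -- the surjection from the free algebra
  let X := Fin n
  let rel : FreeAlgebra F X → FreeAlgebra F X → Prop := fun p q => p ∈ Rel ∧ q = 0
  let ρ : FreeAlgebra F X →ₐ[F] R := (e.symm : _ →ₐ[F] R).comp (RingQuot.mkAlgHom F rel)
  have hρs : Function.Surjective ρ :=
    e.symm.surjective.comp (RingQuot.mkAlgHom_surjective F rel)
  have hρ0 : ∀ a, ρ a = 0 → RingQuot.mkAlgHom F rel a = 0 := by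
    intro a ha
    exact (map_eq_zero_iff _ e.symm.injective).1 ha
  have hρR : ∀ r ∈ Rel, ρ r = 0 := by
    intro r hr
    show e.symm (RingQuot.mkAlgHom F rel r) = 0
    rw [RingQuot.mkAlgHom_rel F (show rel r 0 from ⟨hr, rfl⟩), map_zero, map_zero]
  -- the first quotient
  let L := FreeLieAlgebra F (Gn X)
  let I1 : LieIdeal F L := LieSubmodule.lieSpan F L (NR F X)
  let φ1 : L →ₗ⁅F⁆ (L ⧸ I1) := qm I1
  have hφ1s : Function.Surjective φ1 := qm_surj I1
  have hφ1k : φ1.ker = LieSubmodule.lieSpan F L (NR F X) := qm_ker I1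
  have hfp1 : LieFP F (L ⧸ I1) := fp_quot (fp_free _) φ1 hφ1s _ (NR_finite F X) hφ1k
  have hφ1N : ∀ z ∈ NR F X, φ1 z = 0 := by
    intro z hz
    have : z ∈ φ1.ker := by
      rw [hφ1k]
      exact LieSubmodule.subset_lieSpan hz
    exact this
  let T : Option X → Fin 5 → Fin 5 → (L ⧸ I1) := fun x i j => φ1 (tg F X x i j)
  obtain ⟨E1, hE1a, hE1b, hE1c, hE1d⟩ := h1 F X (L ⧸ I1) T
    (by
      intro x y i j k l ha hb hc hd
      have h3 := hφ1N _ (Or.inl (Or.inl (Or.inl (Or.inl ⟨((x, y), (i, j), (k, l)), rfl⟩))))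
      unfold r1 at h3
      rw [if_pos ⟨ha, hb, hc, hd⟩, LieHom.map_lie] at h3
      exact h3)
    (by
      intro x i j k ha hb hc
      have h3 := hφ1N _ (Or.inl (Or.inl (Or.inl (Or.inr ⟨(x, i, j, k), rfl⟩))))
      unfold r2 at h3
      rw [if_pos ⟨ha, hb, hc⟩, map_sub, LieHom.map_lie, sub_eq_zero] at h3
      exact h3)
    (by
      intro x i j k ha hb hc
      have h3 := hφ1N _ (Or.inl (Or.inl (Or.inr ⟨(x, i, j, k), rfl⟩)))
      unfold r3 at h3
      rw [if_pos ⟨ha, hb, hc⟩, map_sub, LieHom.map_lie, sub_eq_zero] at h3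
      exact h3)
    (by
      intro x y i j j' k ha hb hc hd he
      have h3 := hφ1N _ (Or.inl (Or.inr ⟨((x, y), (i, j), (j', k)), rfl⟩))
      unfold r4 at h3
      rw [if_pos ⟨ha, hb, hc, hd, he⟩, map_sub, LieHom.map_lie, LieHom.map_lie,
        sub_eq_zero] at h3
      exact h3)
  have hT0 : ∀ x i, T x i i = 0 := by
    intro x i
    exact hφ1N _ (Or.inr ⟨(x, i), rfl⟩)
  -- the second quotient
  let S2 : Set (L ⧸ I1) := {z | ∃ i j : Fin 5, i ≠ j ∧ ∃ r ∈ Rel, z = E1 i j r}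
  have hS2f : S2.Finite := by
    have h3 : S2 ⊆ (fun p : (Fin 5 × Fin 5) × Rel => E1 p.1.1 p.1.2 p.2) '' Set.univ := by
      rintro z ⟨i, j, _, r, hr, rfl⟩
      exact ⟨((i, j), ⟨r, hr⟩), trivial, rfl⟩
    exact (Set.toFinite _).subset h3
  let I2 : LieIdeal F (L ⧸ I1) := LieSubmodule.lieSpan F (L ⧸ I1) S2
  let g2 := (L ⧸ I1) ⧸ I2
  let φ2 : (L ⧸ I1) →ₗ⁅F⁆ g2 := qm I2
  have hφ2s : Function.Surjective φ2 := qm_surj I2
  have hφ2k : φ2.ker = LieSubmodule.lieSpan F (L ⧸ I1) S2 := qm_ker I2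
  have hfp2 : LieFP F g2 := fp_quot hfp1 φ2 hφ2s S2 hS2f hφ2k
  let E2 : Fin 5 → Fin 5 → FreeAlgebra F X →ₗ[F] g2 := fun i j => (φ2 : _ →ₗ[F] g2).comp (E1 i j)
  have hE2 : ∀ i j a, E2 i j a = φ2 (E1 i j a) := fun _ _ _ => rfl
  have hE2c : ∀ i j k, i ≠ j → j ≠ k → i ≠ k → ∀ a b, ⁅E2 i j a, E2 j k b⁆ = E2 i k (a * b) := by
    intro i j k ha hb hc a b
    rw [hE2, hE2, hE2, ← LieHom.map_lie, hE1c i j k ha hb hc]
  have hE2d : ∀ i j k l, i ≠ j → k ≠ l → j ≠ k → i ≠ l → ∀ a b, ⁅E2 i j a, E2 k l b⁆ = 0 := by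
    intro i j k l ha hb hc hd a b
    rw [hE2, hE2, ← LieHom.map_lie, hE1d i j k l ha hb hc hd, map_zero]
  have hE2R : ∀ i j, i ≠ j → ∀ r ∈ Rel, E2 i j r = 0 := by
    intro i j hij r hr
    have : E1 i j r ∈ φ2.ker := by
      rw [hφ2k]
      exact LieSubmodule.subset_lieSpan ⟨i, j, hij, r, hr, rfl⟩
    exact this
  -- the ideal
  let K : TwoSidedIdeal (FreeAlgebra F X) := TwoSidedIdeal.mk'
    {a | ∀ (p q : FreeAlgebra F X) (i j : Fin 5), i ≠ j → E2 i j (p * a * q) = 0}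
    (by
      intro p q i j _
      rw [mul_zero, zero_mul, map_zero])
    (by
      intro a b ha hb p q i j hij
      rw [mul_add, add_mul, map_add, ha p q i j hij, hb p q i j hij, add_zero])
    (by
      intro a ha p q i j hij
      rw [mul_neg, neg_mul, map_neg, ha p q i j hij, neg_zero])
    (by
      intro a b hb p q i j hij
      rw [← mul_assoc p a b]
      exact hb (p * a) q i j hij)
    (by
      intro a b ha p q i j hij
      rw [← mul_assoc p a b, mul_assoc (p * a) b q]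
      exact ha p (b * q) i j hij)
  have hK : ∀ a, a ∈ K ↔ ∀ (p q : FreeAlgebra F X) (i j : Fin 5), i ≠ j →
      E2 i j (p * a * q) = 0 := by
    intro a
    exact TwoSidedIdeal.mem_mk' _ _ _ _ _ _ a
  have hRK : ∀ r ∈ Rel, r ∈ K := by
    intro r hr
    rw [hK]
    intro p q i j hij
    obtain ⟨k, hk1, hk2, _, _⟩ := fifth i j i j
    obtain ⟨l, hl1, hl2, hl3, _⟩ := fifth i j k k
    rw [mul_assoc, ← hE2c i k j hk1.symm hk2 hij, ← hE2c k l j hl3.symm hl2 hk2,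
      hE2R k l hl3.symm r hr, zero_lie, lie_zero]
  let qq : FreeAlgebra F X →ₐ[F] K.ringCon.Quotient :=
    { K.ringCon.mk' with commutes' := fun _ => rfl }
  have hqq : ∀ a, qq a = 0 ↔ a ∈ K := by
    intro a
    rw [TwoSidedIdeal.mem_iff]
    exact RingCon.eq K.ringCon
  have hrel : ∀ ⦃x y : FreeAlgebra F X⦄, rel x y → qq x = qq y := by
    rintro x y ⟨hx, rfl⟩
    rw [map_zero, hqq]
    exact hRK x hx
  have hker : ∀ a, ρ a = 0 → ∀ i j, i ≠ j → E2 i j a = 0 := by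
    intro a ha i j hij
    have h3 := RingQuot.liftAlgHom_mkAlgHom_apply F qq hrel a
    rw [hρ0 a ha, map_zero] at h3
    have h4 := (hK a).1 ((hqq a).1 h3.symm) 1 1 i j hij
    rwa [one_mul, mul_one] at h4
  obtain ⟨s, hs⟩ := LinearMap.exists_rightInverse_of_surjective ρ.toLinearMap
    (LinearMap.range_eq_top.2 hρs)
  have hs' : ∀ y, ρ (s y) = y := fun y => LinearMap.congr_fun hs y
  let E : Fin 5 → Fin 5 → R →ₗ[F] g2 := fun i j => (E2 i j).comp s
  have hE : ∀ i j, i ≠ j → ∀ a, E i j (ρ a) = E2 i j a := by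
    intro i j hij a
    show E2 i j (s (ρ a)) = E2 i j a
    rw [← sub_eq_zero, ← map_sub]
    apply hker _ _ i j hij
    rw [map_sub, hs', sub_self]
  have hEc : ∀ i j k, i ≠ j → j ≠ k → i ≠ k → ∀ a b, ⁅E i j a, E j k b⁆ = E i k (a * b) := by
    intro i j k ha hb hc a b
    have h3 : a * b = ρ (s a * s b) := by
      have h4 : ρ (s a * s b) = ρ (s a) * ρ (s b) := map_mul ρ _ _
      rw [h4, hs', hs']
    rw [h3, hE i k hc]
    exact hE2c i j k ha hb hc _ _
  have hEd : ∀ i j k l, i ≠ j → k ≠ l → j ≠ k → i ≠ l → ∀ a b, ⁅E i j a, E k l b⁆ = 0 := by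
    intro i j k l ha hb hc hd a b
    exact hE2d i j k l ha hb hc hd _ _
  -- the generation
  have hgen : LieSubalgebra.lieSpan F g2 {x | ∃ i j, i ≠ j ∧ ∃ a, x = E i j a} = ⊤ := by
    set S := LieSubalgebra.lieSpan F g2 {x | ∃ i j, i ≠ j ∧ ∃ a, x = E i j a} with hSd
    have hm : ∀ t : Gn X, φ2 (φ1 (FreeLieAlgebra.of F t)) ∈ S := by
      rintro ⟨x, i, j⟩
      by_cases hij : i = j
      · subst hij
        have h3 : φ1 (FreeLieAlgebra.of F (x, i, i)) = 0 := hT0 x i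
        rw [h3, map_zero]
        exact S.zero_mem
      · apply LieSubalgebra.subset_lieSpan
        rcases x with _ | x
        · refine ⟨i, j, hij, ρ 1, ?_⟩
          rw [hE i j hij, hE2, hE1a i j hij]
          rfl
        · refine ⟨i, j, hij, ρ (FreeAlgebra.ι F x), ?_⟩
          rw [hE i j hij, hE2, hE1b x i j hij]
          rfl
    let f : L →ₗ⁅F⁆ S := FreeLieAlgebra.lift F fun t => ⟨_, hm t⟩
    have hf : S.incl.comp f = φ2.comp φ1 := by
      apply FreeLieAlgebra.hom_ext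
      intro t
      simp [f]
    rw [eq_top_iff]
    intro y _
    obtain ⟨z, rfl⟩ := hφ2s y
    obtain ⟨w, rfl⟩ := hφ1s z
    have h3 := LieHom.congr_fun hf w
    have h4 : φ2 (φ1 w) = (f w : g2) := h3.symm
    rw [h4]
    exact (f w).2
  -- the map to matrices
  let c : Option X → R := fun x => match x with | none => 1 | some x => ρ (FreeAlgebra.ι F x)
  let w : Gn X → Matrix (Fin 5) (Fin 5) R := fun t =>
    if t.2.1 = t.2.2 then 0 else Matrix.single t.2.1 t.2.2 (c t.1)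
  let π0 : L →ₗ⁅F⁆ Matrix (Fin 5) (Fin 5) R := FreeLieAlgebra.lift F w
  have hπw : ∀ t, π0 (FreeLieAlgebra.of F t) = w t := fun t => FreeLieAlgebra.lift_of_apply w t
  have hπ0 : ∀ x i j, i ≠ j → π0 (tg F X x i j) = Matrix.single i j (c x) := by
    intro x i j hij
    exact (hπw (x, i, j)).trans (if_neg hij)
  have hπ00 : ∀ x i, π0 (tg F X x i i) = 0 := by
    intro x i
    exact (hπw (x, i, i)).trans (if_pos rfl)
  have hls : ∀ {i j k : Fin 5}, i ≠ k → ∀ a b : R,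
      ⁅(Matrix.single i j a : Matrix (Fin 5) (Fin 5) R), Matrix.single j k b⁆ =
        Matrix.single i k (a * b) := by
    intro i j k hik a b
    rw [Ring.lie_def, Matrix.single_mul_single_same,
      Matrix.single_mul_single_of_ne _ _ _ _ hik.symm, sub_zero]
  have hlz : ∀ {i j k l : Fin 5}, j ≠ k → i ≠ l → ∀ a b : R,
      ⁅(Matrix.single i j a : Matrix (Fin 5) (Fin 5) R), Matrix.single k l b⁆ = 0 := by
    intro i j k l hjk hil a b
    rw [Ring.lie_def, Matrix.single_mul_single_of_ne _ _ _ _ hjk,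
      Matrix.single_mul_single_of_ne _ _ _ _ hil.symm, sub_zero]
  have hπ0N : ∀ z ∈ NR F X, π0 z = 0 := by
    rintro z ((((⟨⟨⟨x, y⟩, ⟨i, j⟩, ⟨k, l⟩⟩, rfl⟩ | ⟨⟨x, i, j, k⟩, rfl⟩) | ⟨⟨x, i, j, k⟩, rfl⟩) |
      ⟨⟨⟨x, y⟩, ⟨i, j⟩, ⟨j', k⟩⟩, rfl⟩) | ⟨⟨x, i⟩, rfl⟩)
    · unfold r1
      split_ifs with hcond
      · obtain ⟨ha, hb, hc, hd⟩ := hcond
        rw [LieHom.map_lie, hπ0 _ _ _ ha, hπ0 _ _ _ hb, hlz hc hd]
      · exact map_zero _
    · unfold r2
      split_ifs with hcond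
      · obtain ⟨ha, hb, hc⟩ := hcond
        rw [map_sub, LieHom.map_lie, hπ0 _ _ _ ha, hπ0 _ _ _ hb, hπ0 _ _ _ hc, hls hc, sub_eq_zero]
        congr 1
        exact mul_one _
      · exact map_zero _
    · unfold r3
      split_ifs with hcond
      · obtain ⟨ha, hb, hc⟩ := hcond
        rw [map_sub, LieHom.map_lie, hπ0 _ _ _ ha, hπ0 _ _ _ hb, hπ0 _ _ _ hc, hls hc, sub_eq_zero]
        congr 1
        exact one_mul _
      · exact map_zero _
    · unfold r4
      split_ifs with hcond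
      · obtain ⟨ha, hb, hc, hd, he⟩ := hcond
        rw [map_sub, LieHom.map_lie, LieHom.map_lie, hπ0 _ _ _ ha, hπ0 _ _ _ hb, hπ0 _ _ _ hd,
          hπ0 _ _ _ he, hls hc, hls hc, sub_self]
      · exact map_zero _
    · exact hπ00 x i
  obtain ⟨π1, hπ1⟩ := descend φ1 hφ1s (NR F X) hφ1k π0 hπ0N
  have hπ1E : ∀ a : FreeAlgebra F X, ∀ i j, i ≠ j → π1 (E1 i j a) = Matrix.single i j (ρ a) := by
    intro a
    induction a using FreeAlgebra.induction with
    | grade0 r =>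
      intro i j hij
      rw [Algebra.algebraMap_eq_smul_one, map_smul, map_smul, hE1a i j hij, map_smul, map_one,
        ← Matrix.smul_single]
      congr 1
      show π1 (φ1 (tg F X none i j)) = _
      rw [hπ1, hπ0 _ _ _ hij]
    | grade1 x =>
      intro i j hij
      rw [hE1b x i j hij]
      show π1 (φ1 (tg F X (some x) i j)) = _
      rw [hπ1, hπ0 _ _ _ hij]
    | mul a b ha hb =>
      intro i j hij
      obtain ⟨k, hk1, hk2, _, _⟩ := fifth i j i j
      rw [← hE1c i k j hk1.symm hk2 hij, LieHom.map_lie, ha i k hk1.symm, hb k j hk2, hls hij,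
        map_mul]
    | add a b ha hb =>
      intro i j hij
      rw [map_add, map_add, ha i j hij, hb i j hij, map_add, Matrix.single_add]
  obtain ⟨π2, hπ2⟩ := descend φ2 hφ2s S2 hφ2k π1 (by
    rintro z ⟨i, j, hij, r, hr, rfl⟩
    rw [hπ1E r i j hij, hρR r hr, Matrix.single_zero])
  have hπ2E : ∀ i j, i ≠ j → ∀ a, π2 (E i j a) = Matrix.single i j a := by
    intro i j hij a
    rw [← hs' a, hE i j hij, hE2, hπ2, hπ1E _ i j hij]
  exact fp_bij hfp2 π2 (h2 F R g2 E hcyc hEc hEd hgen π2 hπ2E)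

end

end Y366.LQ.F
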